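import Mathlib
import Pool.Agent.Q117.KK.Count

set_option autoImplicit false

namespace Pool.Agent.Results.MP_8926dc_co.SplitVertex

open scoped Classical in
/-- `k_j(G)`: the number of `j`-element vertex sets of `G` spanning a clique. -/
noncomputable def k {n : ℕ} (j : ℕ) (G : SimpleGraph (Fin n)) : ℕ := (G.cliqueFinset j).card

/-- `f_j(s,t) = C(s,j) + C(t,j-1)`. -/
def f (j s t : ℕ) : ℕ := s.choose j + t.choose (j - 1)

/-- The asserted equality `k_r(k_p ≤ f_p(s,t+1) - 1) = f_r(s,t)`: the number `f_r(s,t)` is the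
largest value of `k_r(G)` over all finite graphs `G` with `k_p(G) ≤ f_p(s,t+1) - 1`. -/
def Assertion (p r s t : ℕ) : Prop :=
  IsGreatest {m : ℕ | ∃ (n : ℕ) (G : SimpleGraph (Fin n)),
    k p G ≤ f p s (t + 1) - 1 ∧ m = k r G} (f r s t)

/-- The assertion fails for all admissible `p, r, s, t` with `C(r-1,p-1) < C(t,p-2)`; in
particular for every pair `3 ≤ p < r` it fails for some admissible `s, t`. The
smallest case is `(p,r,s,t) = (3,4,5,4)`. -/
theorem result :
    (∀ p r s t : ℕ, 3 ≤ p → p < r → r ≤ s → p - 2 ≤ t → t < s →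
      (r - 1).choose (p - 1) < t.choose (p - 2) →
      (∃ (n : ℕ) (G : SimpleGraph (Fin n)),
        k p G ≤ f p s (t + 1) - 1 ∧ f r s t < k r G) ∧ ¬ Assertion p r s t) ∧
    (∀ p r : ℕ, 3 ≤ p → p < r → ∃ s t : ℕ, r ≤ s ∧ p - 2 ≤ t ∧ t < s ∧
      ¬ Assertion p r s t) ∧
    ¬ Assertion 3 4 5 4 := by
  have main : ∀ p r s t : ℕ, 3 ≤ p → p < r → r ≤ s → p - 2 ≤ t → t < s →
      (r - 1).choose (p - 1) < t.choose (p - 2) →
      (∃ (n : ℕ) (G : SimpleGraph (Fin n)),
        k p G ≤ f p s (t + 1) - 1 ∧ f r s t < k r G) ∧ ¬ Assertion p r s t := by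
    intro p r s t hp hpr hrs _ hts hlt
    have hex : ∃ (n : ℕ) (G : SimpleGraph (Fin n)),
        k p G ≤ f p s (t + 1) - 1 ∧ f r s t < k r G := by
      classical
      refine ⟨s + 2, Q117.KK.GG s t (r - 1), ?_, ?_⟩
      · have h1 := Q117.KK.card_cliques s t (r - 1) hts.le (by omega) (p - 1)
        have h2 : p - 1 + 1 = p := by omega
        rw [h2] at h1
        have h3 : k p (Q117.KK.GG s t (r - 1)) =
            s.choose p + t.choose (p - 1) + (r - 1).choose (p - 1) := by
          unfold k; convert h1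
        have h4 : (t + 1).choose (p - 1) = t.choose (p - 2) + t.choose (p - 1) := by
          have h5 : p - 1 = (p - 2) + 1 := by omega
          rw [h5, Nat.choose_succ_succ']
        unfold f
        rw [h3, h4]
        omega
      · have h1 := Q117.KK.card_cliques s t (r - 1) hts.le (by omega) (r - 1)
        have h2 : r - 1 + 1 = r := by omega
        rw [h2, Nat.choose_self] at h1
        have h3 : k r (Q117.KK.GG s t (r - 1)) = s.choose r + t.choose (r - 1) + 1 := by
          unfold k; convert h1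
        unfold f
        rw [h3]
        omega
    refine ⟨hex, ?_⟩
    rintro ⟨_, hub⟩
    obtain ⟨n, G, h1, h2⟩ := hex
    exact absurd (hub ⟨n, G, h1, rfl⟩) (not_le.2 h2)
  refine ⟨main, ?_, ?_⟩
  · intro p r hp hpr
    have hbig := Q117.KK.choose_big (p - 2) (r + (r - 1).choose (p - 1)) (by omega)
    refine ⟨p - 2 + (r + (r - 1).choose (p - 1)) + 1, p - 2 + (r + (r - 1).choose (p - 1)),
      by omega, by omega, by omega, ?_⟩
    exact (main p r _ _ hp hpr (by omega) (by omega) (by omega) (by omega)).2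
  · exact (main 3 4 5 4 (by norm_num) (by norm_num) (by norm_num) (by norm_num) (by norm_num)
      (by decide)).2

end Pool.Agent.Results.MP_8926dc_co.SplitVertex
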